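import Pool.Agent.H.MP_7297ca_co.D

set_option autoImplicit false

namespace Pool.Agent.Results.MP_7297ca_co.Yes

open Set MeasureTheory Real

noncomputable def vert (k n : ℕ) (θ ε : ℝ) (i m : ℤ) : ℂ :=
  (1 / (2 * sin (π / n))) •
    (Complex.exp ((θ + 2 * π * i / k + 2 * π * m / n : ℝ) * Complex.I) +
      ε • Complex.exp ((θ + 2 * π * i / k : ℝ) * Complex.I))

def U (k n : ℕ) (θ ε : ℝ) : Set ℂ := ⋃ i : ℤ, convexHull ℝ (range (vert k n θ ε i))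

theorem result (k n : ℕ) (hk : 1 ≤ k) (hn : 3 ≤ n) (hkn : Nat.Coprime k n) (θ : ℝ) :
    (∃ ε₁ > 0, ∀ ε ∈ Ioo (0:ℝ) ε₁, μH[1] (frontier (U k n θ ε)) ≠ ⊤ ∧
      volume (U k n θ ε) ≠ ⊤ ∧ volume (U k n θ ε) ≠ 0) ∧
    ((∃ ε₀ > 0, ∀ ε ∈ Ioo (0:ℝ) ε₀,
      4 * tan (π / n) < (μH[1] (frontier (U k n θ ε))).toReal / (volume (U k n θ ε)).toReal)
      ↔ 1 < k ∧ k ≡ 1 [MOD n]) := by
  have hU : U k n θ = H.MP_7297ca_co.UU k n θ := by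
    funext ε
    unfold U H.MP_7297ca_co.UU H.MP_7297ca_co.pl
    refine iUnion_congr fun i => ?_
    congr 2
    funext m
    unfold vert H.MP_7297ca_co.vt H.MP_ded0ac_co.R
    rw [H.MP_ded0ac_co.E_eq, H.MP_ded0ac_co.E_eq, smul_add, smul_comm ε]
  rw [hU]
  obtain ⟨ε₁, h1, h⟩ := H.MP_7297ca_co.main k n hk hn hkn θ
  refine ⟨⟨ε₁, h1, fun ε hε => (h ε hε).1⟩, ?_, fun hc => ⟨ε₁, h1, fun ε hε => (h ε hε).2.2 hc⟩⟩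
  rintro ⟨ε₀, h0, h'⟩
  have hm : 0 < min ε₀ ε₁ := lt_min h0 h1
  refine (h (min ε₀ ε₁ / 2) ⟨by linarith, ?_⟩).2.1 (h' _ ⟨by linarith, ?_⟩)
  · linarith [min_le_right ε₀ ε₁]
  · linarith [min_le_left ε₀ ε₁]

end Pool.Agent.Results.MP_7297ca_co.Yes
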